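import Pool.Agent.W5h25.ML.DL
import Pool.Agent.W5h47.ML.LB

/-!
# Joint oscillation of the Mertens and the Liouville function

`M(x)` is the summatory function of `μ`, `L(x)` that of `λ`, and `L₀(x) = L(x) - √x / ζ(1/2)`.
Unconditionally, for all `k`, `m` and `δ > 0` there is `c > 0` such that for all large `x`, all
`δ`-separated `r 1, …, r k` in `[δ, 1/δ]` and all `δ`-separated `s 1, …, s m` in `[δ, 1/δ]` (the two
families may have common or close members):

1. the convex hull of the points `y^(-1/2) (M(r 1 y), …, M(r k y), L₀(s 1 y), …, L₀(s m y))`,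
   `x ≤ y ≤ x log x`, contains the ball of radius `c` about `0` in `R^(k+m)` (sup norm);
2. for all real `a i`, `b j` there is `y` in `[x, x log x]` with
   `∑ a i M(r i y) + ∑ b j L₀(s j y) ≥ c max(|a i|, |b j|) √y`, and
   `∫_x^{x log x} max (∑ a i M(r i y) + ∑ b j L₀(s j y), 0) y^(-3/2) dy ≥ c max(|a i|, |b j|)`.
-/

set_option autoImplicit false
set_option maxHeartbeats 4000000

open Filter Topology Set MeasureTheory

namespace Pool.Agent.Results.MP_a499ba_nt.JointMertensLiouville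

/-- `M(x)`, the sum of the Moebius function over the positive integers `n ≤ x` -/
noncomputable def M (x : ℝ) : ℝ := ∑ n ∈ Finset.Icc 1 ⌊x⌋₊, ((ArithmeticFunction.moebius n : ℤ) : ℝ)

/-- `L(x)`, the sum of the Liouville function over the positive integers `n ≤ x` -/
noncomputable def L (x : ℝ) : ℝ := ∑ n ∈ Finset.Icc 1 ⌊x⌋₊, ((ArithmeticFunction.liouville n : ℤ) : ℝ)

/-- `L(x) - √x / ζ(1/2)` (the number `ζ(1/2)` is real) -/
noncomputable def L₀ (x : ℝ) : ℝ := L x - Real.sqrt x / (riemannZeta (1 / 2)).re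

/-- the dilates `r i` lie in `[δ, 1/δ]`, and any two of them differ by at least `δ` -/
def Separated {k : ℕ} (δ : ℝ) (r : Fin k → ℝ) : Prop :=
  (∀ i, δ ≤ r i ∧ r i ≤ 1 / δ) ∧ ∀ i j, i ≠ j → δ ≤ |r i - r j|

/-- the points `y^(-1/2) (M(r 1 y), …, M(r k y), L₀(s 1 y), …, L₀(s m y))`, `x ≤ y ≤ x log x` -/
def curve {k m : ℕ} (r : Fin k → ℝ) (s : Fin m → ℝ) (x : ℝ) : Set (Fin k ⊕ Fin m → ℝ) :=
  {q | ∃ y ∈ Icc x (x * Real.log x),
    q = Sum.elim (fun i => M (r i * y) / Real.sqrt y) (fun j => L₀ (s j * y) / Real.sqrt y)}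

/-- the linear combination `∑ a i M(r i y) + ∑ b j L₀(s j y)` -/
noncomputable def comb {k m : ℕ} (r : Fin k → ℝ) (s : Fin m → ℝ) (a : Fin k → ℝ) (b : Fin m → ℝ) (y : ℝ) : ℝ :=
  ∑ i, a i * M (r i * y) + ∑ j, b j * L₀ (s j * y)

/-- the two functions -/
noncomputable def EE (t : Bool) : ℝ → ℝ := if t then L₀ else M

/-- which function -/
def sg {k m : ℕ} : Fin k ⊕ Fin m → Bool := Sum.elim (fun _ => false) (fun _ => true)

theorem hEE (t : Bool) (w : ℝ) (hw : 0 ≤ w) : Pool.Agent.W5h25.ML.Es t w = EE t (Real.exp w) := by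
  cases t
  · rfl
  · have h : Real.sqrt (Real.exp w) = Real.exp (w / 2) := by
      rw [Real.sqrt_eq_iff_mul_self_eq (Real.exp_pos _).le (Real.exp_pos _).le, ← Real.exp_add]
      congr 1
      ring
    show Pool.Agent.W5h80.JO.EL w = L₀ (Real.exp w)
    unfold Pool.Agent.W5h80.JO.EL Pool.Agent.W5h80.JO.bb L₀
    rw [if_pos hw, h]
    rfl

theorem sep {k m : ℕ} {δ : ℝ} {r : Fin k → ℝ} {s : Fin m → ℝ} (hr : Separated δ r) (hs : Separated δ s) :
    Pool.Agent.W5h25.ML.SepJ sg δ (Sum.elim r s) := by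
  refine ⟨?_, ?_⟩
  · rintro (i | j)
    · exact hr.1 i
    · exact hs.1 j
  · rintro (i | i) (j | j) hij hσ
    · exact hr.2 i j fun h => hij (by rw [h])
    · simp [sg] at hσ
    · simp [sg] at hσ
    · exact hs.2 i j fun h => hij (by rw [h])

theorem lbs : Pool.Agent.W5h25.ML.LBs := fun k l hl a b h => Pool.Agent.W5h47.ML.LB k l hl a b h

/-- **Joint oscillation of `M` and `L₀`.** -/
theorem result : ∀ (k m : ℕ) (δ : ℝ), 0 < δ → ∃ c : ℝ, 0 < c ∧ ∀ᶠ x : ℝ in atTop,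
    ∀ r : Fin k → ℝ, Separated δ r → ∀ s : Fin m → ℝ, Separated δ s →
      Metric.ball (0 : Fin k ⊕ Fin m → ℝ) c ⊆ convexHull ℝ (curve r s x) ∧
      ∀ (a : Fin k → ℝ) (b : Fin m → ℝ),
        (∃ y ∈ Icc x (x * Real.log x), c * max ‖a‖ ‖b‖ * Real.sqrt y ≤ comb r s a b y) ∧
        c * max ‖a‖ ‖b‖ ≤ ∫ y in x..(x * Real.log x), max (comb r s a b y) 0 * y ^ (-(3 / 2) : ℝ) := by
  intro k m δ hδ
  obtain ⟨c1, hc1, h1⟩ := Pool.Agent.W5h25.ML.dilatesJ_hull lbs (J := Fin k ⊕ Fin m) sg EE hEE δ hδ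
  obtain ⟨c2, hc2, h2⟩ := Pool.Agent.W5h25.ML.dilatesJ lbs (J := Fin k ⊕ Fin m) sg EE hEE δ hδ
  refine ⟨min c1 c2, lt_min hc1 hc2, ?_⟩
  filter_upwards [h1, h2, eventually_ge_atTop (Real.exp 1)] with x g1 g2 hx r hr s hs
  have hx0 : 0 < x := (Real.exp_pos 1).trans_le hx
  have hcrv : Pool.Agent.W5h25.ML.crvJ sg EE (Sum.elim r s) x = curve r s x := by
    unfold Pool.Agent.W5h25.ML.crvJ curve
    ext q
    simp only [mem_ofPred_eq]
    refine exists_congr fun y => and_congr_right fun _ => ?_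
    have : (fun j : Fin k ⊕ Fin m => EE (sg j) (Sum.elim r s j * y) / Real.sqrt y) =
        Sum.elim (fun i => M (r i * y) / Real.sqrt y) (fun j => L₀ (s j * y) / Real.sqrt y) := by
      funext j
      rcases j with i | j
      · rfl
      · rfl
    rw [this]
  refine ⟨?_, fun a b => ?_⟩
  · have := g1 (Sum.elim r s) (sep hr hs)
    rw [hcrv] at this
    exact (Metric.ball_subset_ball (min_le_left _ _)).trans this
  · have hn : ‖(Sum.elim a b : Fin k ⊕ Fin m → ℝ)‖ = max ‖a‖ ‖b‖ := by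
      apply le_antisymm
      · rw [pi_norm_le_iff_of_nonneg (le_max_of_le_left (norm_nonneg _))]
        rintro (i | j)
        · exact (norm_le_pi_norm a i).trans (le_max_left _ _)
        · exact (norm_le_pi_norm b j).trans (le_max_right _ _)
      · refine max_le ?_ ?_
        · rw [pi_norm_le_iff_of_nonneg (norm_nonneg _)]
          exact fun i => norm_le_pi_norm (Sum.elim a b : Fin k ⊕ Fin m → ℝ) (Sum.inl i)
        · rw [pi_norm_le_iff_of_nonneg (norm_nonneg _)]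
          exact fun j => norm_le_pi_norm (Sum.elim a b : Fin k ⊕ Fin m → ℝ) (Sum.inr j)
    have hcomb : ∀ y : ℝ, ∑ j : Fin k ⊕ Fin m, Sum.elim a b j * EE (sg j) (Sum.elim r s j * y) = comb r s a b y := by
      intro y
      rw [Fintype.sum_sum_type]
      rfl
    obtain ⟨⟨y, hy, hy2⟩, hI⟩ := g2 (Sum.elim r s) (sep hr hs) (Sum.elim a b)
    rw [hn] at hy2 hI
    simp_rw [hcomb] at hI
    rw [hcomb] at hy2
    have hm : 0 ≤ max ‖a‖ ‖b‖ := le_max_of_le_left (norm_nonneg _)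
    have hle : min c1 c2 * max ‖a‖ ‖b‖ ≤ c2 * max ‖a‖ ‖b‖ := mul_le_mul_of_nonneg_right (min_le_right _ _) hm
    exact ⟨⟨y, hy, (mul_le_mul_of_nonneg_right hle (Real.sqrt_nonneg _)).trans hy2⟩, hle.trans hI⟩

end Pool.Agent.Results.MP_a499ba_nt.JointMertensLiouville
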