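import Pool.Agent.W5h80.JO.D
import Pool.Agent.W5h80.JO.L5

/-!
# Joint oscillation of the Mertens and Liouville summatory functions at dilates

Let `E = M`, or `E(x) = L(x) - √x / ζ(1/2)`.  Unconditionally:

1. For all `k` and `δ > 0` there is `c > 0` such that for all large `x` and all `δ`-separated
   `r 1, …, r k` in `[δ, 1/δ]`, the convex hull of the points
   `y^(-1/2) (E(r 1 y), …, E(r k y))`, `x ≤ y ≤ x log x`, contains the ball of radius `c` about `0`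
   (sup norm).
2. For all `k` and `δ > 0` there is `c > 0` such that for all large `x`, all such `r` and all real
   `a 1, …, a k` there is `y` in `[x, x log x]` with `∑ a i E(r i y) ≥ c ‖a‖ √y`, and
   `∫_x^{x log x} max (∑ a i E(r i y), 0) y^(-3/2) dy ≥ c ‖a‖`.
3. The same for differences `∫ E(r y) dν(r) - ∫ E(r y) dν'(r)`, uniformly over weakly compact sets of
   pairs `(ν, ν')` of different finite measures on an interval `[α, β]`, `α > 0`.
-/

set_option autoImplicit false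
set_option maxHeartbeats 4000000

open Filter Topology Set MeasureTheory

namespace Pool.Agent.Results.MP_a499ba_nt.JointOscillation

/-- `M(x)`, the sum of the Moebius function over the positive integers `n ≤ x` -/
noncomputable def M (x : ℝ) : ℝ := ∑ n ∈ Finset.Icc 1 ⌊x⌋₊, ((ArithmeticFunction.moebius n : ℤ) : ℝ)

/-- `L(x)`, the sum of the Liouville function over the positive integers `n ≤ x` -/
noncomputable def L (x : ℝ) : ℝ := ∑ n ∈ Finset.Icc 1 ⌊x⌋₊, ((ArithmeticFunction.liouville n : ℤ) : ℝ)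

/-- `L(x) - √x / ζ(1/2)` (the number `ζ(1/2)` is real) -/
noncomputable def L₀ (x : ℝ) : ℝ := L x - Real.sqrt x / (riemannZeta (1 / 2)).re

/-- the dilates `r i` lie in `[δ, 1/δ]`, and any two of them differ by at least `δ` -/
def Separated {k : ℕ} (δ : ℝ) (r : Fin k → ℝ) : Prop :=
  (∀ i, δ ≤ r i ∧ r i ≤ 1 / δ) ∧ ∀ i j, i ≠ j → δ ≤ |r i - r j|

/-- the points `y^(-1/2) (E(r 1 y), …, E(r k y))`, `x ≤ y ≤ x log x` -/
def curve {k : ℕ} (E : ℝ → ℝ) (r : Fin k → ℝ) (x : ℝ) : Set (Fin k → ℝ) :=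
  {q | ∃ y ∈ Icc x (x * Real.log x), q = fun i => E (r i * y) / Real.sqrt y}

/-- `∫ E(r y) dν(r) - ∫ E(r y) dν'(r)` for a pair `p = (ν, ν')` -/
noncomputable def Diff (E : ℝ → ℝ) (p : FiniteMeasure ℝ × FiniteMeasure ℝ) (y : ℝ) : ℝ :=
  (∫ r, E (r * y) ∂(p.1 : Measure ℝ)) - ∫ r, E (r * y) ∂(p.2 : Measure ℝ)

/-- the three statements, for a function `E`; `‖a‖` is the maximum of the `|a i|` -/
structure Statements (E : ℝ → ℝ) : Prop where
  hull : ∀ (k : ℕ) (δ : ℝ), 0 < δ → ∃ c : ℝ, 0 < c ∧ ∀ᶠ x : ℝ in atTop,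
    ∀ r : Fin k → ℝ, Separated δ r → Metric.ball (0 : Fin k → ℝ) c ⊆ convexHull ℝ (curve E r x)
  combinations : ∀ (k : ℕ) (δ : ℝ), 0 < δ → ∃ c : ℝ, 0 < c ∧ ∀ᶠ x : ℝ in atTop,
    ∀ r : Fin k → ℝ, Separated δ r → ∀ a : Fin k → ℝ,
      (∃ y ∈ Icc x (x * Real.log x), c * ‖a‖ * Real.sqrt y ≤ ∑ i, a i * E (r i * y)) ∧
      c * ‖a‖ ≤ ∫ y in x..(x * Real.log x), max (∑ i, a i * E (r i * y)) 0 * y ^ (-(3 / 2) : ℝ)
  measures : ∀ α β : ℝ, 0 < α → α ≤ β → ∀ K : Set (FiniteMeasure ℝ × FiniteMeasure ℝ), IsCompact K →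
    (∀ p ∈ K, (p.1 : Measure ℝ) (Icc α β)ᶜ = 0 ∧ (p.2 : Measure ℝ) (Icc α β)ᶜ = 0 ∧ p.1 ≠ p.2) →
    ∃ c : ℝ, 0 < c ∧ ∀ᶠ x : ℝ in atTop, ∀ p ∈ K,
      (∃ y ∈ Icc x (x * Real.log x), c * Real.sqrt y ≤ Diff E p y) ∧
      c ≤ ∫ y in x..(x * Real.log x), max (Diff E p y) 0 * y ^ (-(3 / 2) : ℝ)

theorem statements_of {E' E : ℝ → ℝ} (hE : Pool.Agent.W5h80.JO.Sig E') (hEE : ∀ w, 0 ≤ w → E' w = E (Real.exp w)) :
    Statements E where
  hull k δ hδ := Pool.Agent.W5h80.JO.dilates_hull hE hEE k δ hδ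
  combinations k δ hδ := Pool.Agent.W5h80.JO.dilates hE hEE k δ hδ
  measures _ _ hα hαβ K hK hKP := Pool.Agent.W5h80.JO.uniform hE hEE hα hαβ K hK hKP

theorem result : Statements M ∧ Statements L₀ := by
  refine ⟨statements_of Pool.Agent.W5h80.JO.sig_mm fun w _ => rfl,
    statements_of Pool.Agent.W5h80.JO.sig_EL fun w hw => ?_⟩
  have h : Real.sqrt (Real.exp w) = Real.exp (w / 2) := by
    rw [Real.sqrt_eq_iff_mul_self_eq (Real.exp_pos _).le (Real.exp_pos _).le, ← Real.exp_add]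
    congr 1
    ring
  unfold Pool.Agent.W5h80.JO.EL Pool.Agent.W5h80.JO.bb L₀
  rw [if_pos hw, h]
  rfl

end Pool.Agent.Results.MP_a499ba_nt.JointOscillation
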