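import Pool.Agent.W5h38.ML.E

/-!
# One-sided large values of `M(x)` and `L(x)` on large subsets of every window `[x, x log x]`

`M(x) = ∑_{n ≤ x} μ(n)`, `L(x) = ∑_{n ≤ x} λ(n)`, `F(x) = x^(1/2) (log log log x)^(5/4)`. Call (S) the statement:
the Riemann Hypothesis holds and all nontrivial zeros of `ζ` are simple. For `E = M` and for `E = L`:

1. If `ζ` has a zero with real part `> θ ≥ 1/2` then for every `λ > 0`, all large `x` and both signs `s = ±1`, the set
   of the `y` in `[x, x log x]` with `s E(y) ≥ y^θ` has measure at least `x^(1-λ)`.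
2. If (S) fails, there is a `c > 0` such that the same holds with `s E(y) ≥ c y^(1/2) log y`, for every `λ > 0`.
3. So a one-sided bound `s E(y) ≤ K F(y)` (or `≤ o(y^(1/2) log y)`) for the `y` of arbitrarily sparse windows
   `[x, x log x]` outside a set of measure at most `x^(1-λ)`, with one `λ > 0`, implies (S).
4. If `ζ` has a zero with real part `> θ ≥ 1/2`, the set of the `y` in `[x, x + c x/(log x)^κ]` with
   `|E(y)| ≥ y^θ` has measure at least `x^(1-λ)` for all large `x`, for all `c, λ > 0` and `κ ≥ 0` with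
   `4θ(1-θ)(κ+1) ≤ 1`.

The kernel `∑_n P(n e^(-v))` with `P(x) = e^(-πx²/4) - 3 e^(-πx²) + ...` is positive and decays doubly
exponentially; against it, the average of `M` is bounded and the average of `L` is `O(e^(t/2))` (as `λ * 1` is the
indicator of the squares), while the averages of the positive and of the negative part are as large as a zero
predicts; for `L` this uses `ζ(2ρ) ≠ 0` and the partial sums of `∑ m^(-2ρ)` on the line `Re 2ρ = 1`.
-/

set_option autoImplicit false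
set_option maxHeartbeats 4000000

open Filter Topology Set MeasureTheory

namespace Pool.Agent.Results.MP_a499ba_nt.OneSidedExceptional

/-- `M(x)`, the sum of the Möbius function over the positive integers `n ≤ x` -/
noncomputable def M (x : ℝ) : ℝ := ∑ n ∈ Finset.Icc 1 ⌊x⌋₊, ((ArithmeticFunction.moebius n : ℤ) : ℝ)

/-- `L(x)`, the sum of the Liouville function over the positive integers `n ≤ x` -/
noncomputable def L (x : ℝ) : ℝ := ∑ n ∈ Finset.Icc 1 ⌊x⌋₊, ((ArithmeticFunction.liouville n : ℤ) : ℝ)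

/-- `F(x) = x^(1/2) (log log log x)^(5/4)` -/
noncomputable def F (x : ℝ) : ℝ := x ^ (1 / 2 : ℝ) * Real.log (Real.log (Real.log x)) ^ (5 / 4 : ℝ)

/-- the Riemann Hypothesis holds and all nontrivial zeros of `ζ` are simple -/
def RHSimple : Prop :=
  ∀ ρ : ℂ, riemannZeta ρ = 0 → 0 < ρ.re → ρ.re < 1 → ρ.re = 1 / 2 ∧ deriv riemannZeta ρ ≠ 0

/-- the set of the `y` in `[x, x log x]` with `s E(y) ≥ g(y)` -/
def large (E g : ℝ → ℝ) (s x : ℝ) : Set ℝ := {y : ℝ | y ∈ Icc x (x * Real.log x) ∧ g y ≤ s * E y}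

/-- the four statements about a function `E` -/
def Statements (E : ℝ → ℝ) : Prop :=
  (∀ θ : ℝ, 1 / 2 ≤ θ → (∃ z : ℂ, riemannZeta z = 0 ∧ θ < z.re) → ∀ l : ℝ, 0 < l →
    ∀ᶠ x : ℝ in atTop, ∀ s : ℝ, s = 1 ∨ s = -1 →
      x ^ (1 - l) ≤ (volume (large E (fun y => y ^ θ) s x)).toReal) ∧
  (¬ RHSimple → ∃ c : ℝ, 0 < c ∧ ∀ l : ℝ, 0 < l → ∀ᶠ x : ℝ in atTop, ∀ s : ℝ, s = 1 ∨ s = -1 →
    x ^ (1 - l) ≤ (volume (large E (fun y => c * (y ^ (1 / 2 : ℝ) * Real.log y)) s x)).toReal) ∧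
  (∀ G : ℝ → ℝ, ((∃ K : ℝ, G = fun y => K * F y) ∨
      (∀ ε : ℝ, 0 < ε → ∀ᶠ y : ℝ in atTop, G y ≤ ε * (y ^ (1 / 2 : ℝ) * Real.log y))) →
    ∀ s : ℝ, s = 1 ∨ s = -1 → ∀ l : ℝ, 0 < l →
    (∃ᶠ x : ℝ in atTop, ∃ B : Set ℝ, volume B ≤ ENNReal.ofReal (x ^ (1 - l)) ∧
      ∀ y ∈ Icc x (x * Real.log x), y ∉ B → s * E y ≤ G y) → RHSimple) ∧
  (∀ θ κ c l : ℝ, 1 / 2 ≤ θ → 0 ≤ κ → 4 * θ * (1 - θ) * (κ + 1) ≤ 1 → 0 < c → 0 < l →
    (∃ z : ℂ, riemannZeta z = 0 ∧ θ < z.re) →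
    ∀ᶠ x : ℝ in atTop, x ^ (1 - l) ≤
      (volume {y : ℝ | y ∈ Icc x (x + c * x / Real.log x ^ κ) ∧ y ^ θ ≤ |E y|}).toReal)

open Pool.Agent.W5h38.ML

lemma F_small (K ε : ℝ) (hε : 0 < ε) : ∀ᶠ y : ℝ in atTop, K * F y ≤ ε * (y ^ (1 / 2 : ℝ) * Real.log y) := by
  have hlog := Real.tendsto_log_atTop
  have t0 : ∀ᶠ w : ℝ in atTop, |K| * w ^ (5 / 4 : ℝ) ≤ ε * Real.exp w := by
    have h := tendsto_exp_div_rpow_atTop (5 / 4 : ℝ)
    filter_upwards [h.eventually_ge_atTop (|K| / ε), eventually_gt_atTop 0] with w h1 h2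
    have h3 : 0 < w ^ (5 / 4 : ℝ) := Real.rpow_pos_of_pos h2 _
    rw [div_le_div_iff₀ hε h3] at h1
    linarith
  have t1 : Tendsto (fun y : ℝ => Real.log (Real.log (Real.log y))) atTop atTop := hlog.comp (hlog.comp hlog)
  filter_upwards [t1.eventually t0, t1.eventually_ge_atTop 0, (hlog.comp hlog).eventually_ge_atTop 1,
    hlog.eventually_ge_atTop 1, eventually_ge_atTop 1] with y a1 a2 a3 a4 a5
  have a3' : 1 ≤ Real.log (Real.log y) := a3
  have hy : 0 < y := by linarith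
  have e1 : Real.exp (Real.log (Real.log (Real.log y))) = Real.log (Real.log y) := Real.exp_log (by linarith)
  rw [e1] at a1
  have e2 : Real.log (Real.log y) ≤ Real.log y := (Real.log_le_sub_one_of_pos (by linarith)).trans (by linarith)
  have e3 : 0 < y ^ (1 / 2 : ℝ) := Real.rpow_pos_of_pos hy _
  have e4 : 0 ≤ Real.log (Real.log (Real.log y)) ^ (5 / 4 : ℝ) := Real.rpow_nonneg a2 _
  have e5 : K * Real.log (Real.log (Real.log y)) ^ (5 / 4 : ℝ) ≤ ε * Real.log y := by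
    have h1 := mul_le_mul_of_nonneg_right (le_abs_self K) e4
    have h2 := mul_le_mul_of_nonneg_left e2 hε.le
    linarith
  unfold F
  calc K * (y ^ (1 / 2 : ℝ) * Real.log (Real.log (Real.log y)) ^ (5 / 4 : ℝ)) =
        y ^ (1 / 2 : ℝ) * (K * Real.log (Real.log (Real.log y)) ^ (5 / 4 : ℝ)) := by ring
    _ ≤ y ^ (1 / 2 : ℝ) * (ε * Real.log y) := mul_le_mul_of_nonneg_left e5 e3.le
    _ = _ := by ring

/-- from the exponential scale -/
lemma transfer (E f : ℝ → ℝ) (hEf : ∀ y : ℝ, 0 < y → f (Real.log y) = E y) (hf : Good f)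
    (hshort : ∀ θ κ c l : ℝ, 1 / 2 ≤ θ → 0 ≤ κ → 4 * θ * (1 - θ) * (κ + 1) ≤ 1 → 0 < c → 0 < l →
      (∃ z : ℂ, riemannZeta z = 0 ∧ θ < z.re) →
      ∀ᶠ x : ℝ in atTop, x ^ (1 - l) ≤
        (volume {y : ℝ | y ∈ Icc x (x + c * x / Real.log x ^ κ) ∧ y ^ θ ≤ |E y|}).toReal) : Statements E := by
  have hset : ∀ (g : ℝ → ℝ) (s x : ℝ), 0 < x → Big f g s x = large E g s x := by
    intro g s x hx
    ext y
    constructor
    · rintro ⟨h1, h2⟩
      rw [hEf y (hx.trans_le h1.1)] at h2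
      exact ⟨h1, h2⟩
    · rintro ⟨h1, h2⟩
      refine ⟨h1, ?_⟩
      rw [hEf y (hx.trans_le h1.1)]
      exact h2
  refine ⟨fun θ hθ hz l hl => ?_, fun hn => ?_, fun G hG s hs l hl h => ?_, hshort⟩
  · filter_upwards [big1 hf θ hθ hz l hl, eventually_gt_atTop 0] with x hx hx0 s hs
    rw [← hset _ s x hx0]
    exact hx s hs
  · obtain ⟨c, hc, h⟩ := big2 hf hn
    refine ⟨c, hc, fun l hl => ?_⟩
    filter_upwards [h l hl, eventually_gt_atTop 0] with x hx hx0 s hs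
    rw [← hset _ s x hx0]
    have := hx s hs
    simpa only [Real.sqrt_eq_rpow] using this
  · have hG' : ∀ ε : ℝ, 0 < ε → ∀ᶠ y : ℝ in atTop, G y ≤ ε * (Real.sqrt y * Real.log y) := by
      intro ε hε
      simp only [Real.sqrt_eq_rpow]
      rcases hG with ⟨K, rfl⟩ | hG
      · exact F_small K ε hε
      · exact hG ε hε
    refine exc' hf G hG' s hs l hl ?_
    refine (h.and_eventually (eventually_gt_atTop 0)).mono ?_
    rintro x ⟨⟨B, hB, hx⟩, hx0⟩
    refine ⟨B, hB, fun y hy hyB => ?_⟩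
    rw [hEf y (hx0.trans_le hy.1)]
    exact hx y hy hyB

/-- One-sided large values of `M` and `L` on large sets in every window. -/
theorem result : Statements M ∧ Statements L := by
  refine ⟨transfer M H313.TK.mm (fun y hy => ?_) good_mm (fun θ κ c l h1 h2 h3 h4 h5 h6 => short_M θ κ c l h1 h2 h3 h4 h5 h6),
    transfer L ll (fun y hy => ?_) good_ll (fun θ κ c l h1 h2 h3 h4 h5 h6 => short_L θ κ c l h1 h2 h3 h4 h5 h6)⟩
  · unfold H313.TK.mm
    rw [Real.exp_log hy]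
    rfl
  · unfold ll
    rw [Real.exp_log hy]
    rfl

end Pool.Agent.Results.MP_a499ba_nt.OneSidedExceptional
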