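import Pool.Agent.W5h24.SP.Short

/-!
# The Mertens and Liouville summatory functions at sparse sets of integers

`M(n) = ∑_{m ≤ n} μ(m)`, `L(n) = ∑_{m ≤ n} λ(m)`, `F(x) = x^(1/2) (log log log x)^(5/4)`. Call (S) the
statement: the Riemann Hypothesis holds and all nontrivial zeros of `ζ` are simple. Let `A` be a set of
integers which has a member in each interval `[x, x + x^(1-l)]` (`x` large), where `0 < l ≤ 1` may be
arbitrarily small; for example, the set of the `k`-th powers, with any `l < 1/k`. We say that `A` has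
many members `m` with a property, if the windows `[x, x (log x)^2]`, `x` large, contain at least
`x^(l-ε)` of them, for all `ε > 0`. (For `k`-th powers, these windows contain about `x^(1/k)` members of
`A`.)

0. `A` has many members `m` with `M(m) ≥ c m^(1/2)`, and many with `M(m) ≤ -c m^(1/2)`. So the sequence
   `M(n^k)`, `n = 1, 2, 3, …`, changes sign infinitely often, and `M(n^k) = Ω_±(n^(k/2))`, for every `k`.

For `E = M` and for `E = L`:

1. If `ζ` has a zero with real part `> θ ≥ 1/2`, then `A` has many members `m` with `E(m) ≥ m^θ`, and many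
   with `E(m) ≤ -m^θ`.
2. If (S) fails, the same holds with `c m^(1/2) log m` for `m^θ`, with a constant `c > 0` which does not
   depend on `A`.
3. So a one-sided bound `s E(m) ≤ K F(m)` (or `≤ o(m^(1/2) log m)`), `s = ±1` fixed, for the `m` in `A` in
   arbitrarily sparse windows `[x, x (log x)^2]`, with at most `x^(l-ε)` exceptions in `A` for some `ε > 0`,
   implies (S). Nothing is assumed for the integers outside of `A`, so for almost all integers.
4. For `θ ≥ 1/2`, `ζ` has no zeros with real part `> θ` if and only if for every `δ > 0` there is an `ε > 0`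
   and arbitrarily large `x` with `s E(m) ≤ m^(θ+δ)` for all but at most `x^(l-ε)` of the members `m` of
   `A` in `[x, x (log x)^2]`.
5. If `ζ` has a zero with real part `> θ ≥ 1/2`, then at least `x^(l-ε)` of the members `m` of `A` in the
   short window `[x, x + c x/(log x)^κ]` have `|E(m)| ≥ m^θ`, for all large `x`, for all `c, ε > 0` and
   `κ ≥ 0` with `4θ(1-θ)(κ+1) ≤ 1`.

A trivial bound for `E` in the short intervals would only allow `l > 1/2`.

Proof. Let `E(e^u)` be the function in the exponential scale. If there are no zeros with real part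
`> x₁`, Plancherel's theorem on the lines to the right of `x₁` gives
`∫ |E(e^(u+w)) - E(e^u)|² e^(-2xu) du ≪ w^(1-δ)` for `0 < w ≤ 1`, `x > x₁`. By a chaining argument over
dyadic `w` the differences over all the short intervals are `O(e^((x₁ - l/2 + δ) u))`, outside a set of
`u` the measure of which decreases exponentially. On the other hand, `E` has large values of both signs
on large sets: these are the theorems in `OneSidedExceptional`, from a positive kernel against which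
`E` is small on average.
-/

set_option autoImplicit false

open Filter Topology Set

namespace Pool.Agent.Results.MP_a499ba_nt.SparseIntegers

/-- `M(n)`, the sum of the Möbius function over the positive integers `≤ n` -/
noncomputable def M (n : ℕ) : ℝ := ∑ m ∈ Finset.Icc 1 n, ((ArithmeticFunction.moebius m : ℤ) : ℝ)

/-- `L(n)`, the sum of the Liouville function over the positive integers `≤ n` -/
noncomputable def L (n : ℕ) : ℝ := ∑ m ∈ Finset.Icc 1 n, ((ArithmeticFunction.liouville m : ℤ) : ℝ)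

/-- `F(x) = x^(1/2) (log log log x)^(5/4)` -/
noncomputable def F (x : ℝ) : ℝ := √x * Real.log (Real.log (Real.log x)) ^ (5 / 4 : ℝ)

/-- the Riemann Hypothesis holds and all nontrivial zeros of `ζ` are simple -/
def RHSimple : Prop :=
  ∀ ρ : ℂ, riemannZeta ρ = 0 → 0 < ρ.re → ρ.re < 1 → ρ.re = 1 / 2 ∧ deriv riemannZeta ρ ≠ 0

/-- `A` has a member in each of the intervals `[x, x + x^(1 - l)]`, `x` large -/
def Meets (l : ℝ) (A : ℕ → Prop) : Prop :=
  ∀ᶠ x : ℕ in atTop, ∃ m : ℕ, x ≤ m ∧ (m : ℝ) ≤ x + (x : ℝ) ^ (1 - l) ∧ A m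

/-- For all `ε > 0`, every window `[x, x (log x)^2]`, `x` large, contains at least `x^(l - ε)` members
`m` of `A` with `g(m) ≤ E(m)`, and at least as many with `E(m) ≤ -g(m)`. -/
def Many (E : ℕ → ℝ) (g : ℝ → ℝ) (l : ℝ) (A : ℕ → Prop) : Prop :=
  ∀ ε : ℝ, 0 < ε → ∀ᶠ x : ℝ in atTop, ∀ s : ℝ, s = 1 ∨ s = -1 →
    x ^ (l - ε) ≤ ({m : ℕ | A m ∧ x ≤ m ∧ (m : ℝ) ≤ x * Real.log x ^ 2 ∧ g m ≤ s * E m}.ncard : ℝ)

/-- For some `ε > 0` there are arbitrarily large `x` such that `s E(m) ≤ g(m)` for all but at most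
`x^(l - ε)` of the members `m` of `A` in `[x, x (log x)^2]`. -/
def MostlyBounded (E : ℕ → ℝ) (s : ℝ) (g : ℝ → ℝ) (l : ℝ) (A : ℕ → Prop) : Prop :=
  ∃ ε : ℝ, 0 < ε ∧ ∃ᶠ x : ℝ in atTop,
    ({m : ℕ | A m ∧ x ≤ m ∧ (m : ℝ) ≤ x * Real.log x ^ 2 ∧ g m < s * E m}.ncard : ℝ) ≤ x ^ (l - ε)

/-- the five statements about a function `E` -/
def Statements (E : ℕ → ℝ) : Prop :=
  (∀ θ : ℝ, 1 / 2 ≤ θ → (∃ z : ℂ, riemannZeta z = 0 ∧ θ < z.re) →
    ∀ (l : ℝ) (A : ℕ → Prop), 0 < l → l ≤ 1 → Meets l A → Many E (fun y => y ^ θ) l A) ∧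
  (¬ RHSimple → ∃ c : ℝ, 0 < c ∧ ∀ (l : ℝ) (A : ℕ → Prop), 0 < l → l ≤ 1 → Meets l A →
    Many E (fun y => c * (√y * Real.log y)) l A) ∧
  (∀ G : ℝ → ℝ, ((∃ K : ℝ, G = fun y => K * F y) ∨
      (∀ δ : ℝ, 0 < δ → ∀ᶠ y : ℝ in atTop, G y ≤ δ * (√y * Real.log y))) →
    ∀ s : ℝ, s = 1 ∨ s = -1 → ∀ (l : ℝ) (A : ℕ → Prop), 0 < l → l ≤ 1 → Meets l A →
      MostlyBounded E s G l A → RHSimple) ∧
  (∀ θ : ℝ, 1 / 2 ≤ θ → ∀ s : ℝ, s = 1 ∨ s = -1 → ∀ (l : ℝ) (A : ℕ → Prop), 0 < l → l ≤ 1 →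
    Meets l A → ((∀ z : ℂ, riemannZeta z = 0 → z.re ≤ θ) ↔
      ∀ δ : ℝ, 0 < δ → MostlyBounded E s (fun y => y ^ (θ + δ)) l A)) ∧
  (∀ θ κ c : ℝ, 1 / 2 ≤ θ → 0 ≤ κ → 4 * θ * (1 - θ) * (κ + 1) ≤ 1 → 0 < c →
    (∃ z : ℂ, riemannZeta z = 0 ∧ θ < z.re) →
    ∀ (l : ℝ) (A : ℕ → Prop), 0 < l → l ≤ 1 → Meets l A → ∀ ε : ℝ, 0 < ε →
      ∀ᶠ x : ℝ in atTop, x ^ (l - ε) ≤ ({m : ℕ | A m ∧ x ≤ m ∧
        (m : ℝ) ≤ x + c * x / Real.log x ^ κ ∧ (m : ℝ) ^ θ ≤ |E m|}.ncard : ℝ))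

open Pool.Agent.W5h24.SP Pool.Agent.W5h38.ML

lemma F_small (K ε : ℝ) (hε : 0 < ε) : ∀ᶠ y : ℝ in atTop, K * F y ≤ ε * (√y * Real.log y) := by
  have hlog := Real.tendsto_log_atTop
  have t0 : ∀ᶠ w : ℝ in atTop, |K| * w ^ (5 / 4 : ℝ) ≤ ε * Real.exp w := by
    have h := tendsto_exp_div_rpow_atTop (5 / 4 : ℝ)
    filter_upwards [h.eventually_ge_atTop (|K| / ε), eventually_gt_atTop 0] with w h1 h2
    have h3 : 0 < w ^ (5 / 4 : ℝ) := Real.rpow_pos_of_pos h2 _
    rw [div_le_div_iff₀ hε h3] at h1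
    linarith
  have t1 : Tendsto (fun y : ℝ => Real.log (Real.log (Real.log y))) atTop atTop :=
    hlog.comp (hlog.comp hlog)
  filter_upwards [t1.eventually t0, t1.eventually_ge_atTop 0, (hlog.comp hlog).eventually_ge_atTop 1,
    hlog.eventually_ge_atTop 1, eventually_ge_atTop 1] with y a1 a2 a3 a4 a5
  have a3' : 1 ≤ Real.log (Real.log y) := a3
  have e1 : Real.exp (Real.log (Real.log (Real.log y))) = Real.log (Real.log y) :=
    Real.exp_log (by linarith)
  rw [e1] at a1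
  have e2 : Real.log (Real.log y) ≤ Real.log y :=
    (Real.log_le_sub_one_of_pos (by linarith)).trans (by linarith)
  have e4 : 0 ≤ Real.log (Real.log (Real.log y)) ^ (5 / 4 : ℝ) := Real.rpow_nonneg a2 _
  have e5 : K * Real.log (Real.log (Real.log y)) ^ (5 / 4 : ℝ) ≤ ε * Real.log y := by
    have h1 := mul_le_mul_of_nonneg_right (le_abs_self K) e4
    have h2 := mul_le_mul_of_nonneg_left e2 hε.le
    linarith
  unfold F
  calc K * (√y * Real.log (Real.log (Real.log y)) ^ (5 / 4 : ℝ)) =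
        √y * (K * Real.log (Real.log (Real.log y)) ^ (5 / 4 : ℝ)) := by ring
    _ ≤ √y * (ε * Real.log y) := mul_le_mul_of_nonneg_left e5 (Real.sqrt_nonneg _)
    _ = _ := by ring

/-- the two descriptions of the sampled integers with large values -/
lemma many_of {E : ℕ → ℝ} {f : ℝ → ℝ} (hE : ∀ m : ℕ, 0 < m → f (Real.log m) = E m) {g : ℝ → ℝ}
    {l : ℝ} {A : ℕ → Prop}
    (h : ∀ lam : ℝ, 0 < lam → ∀ᶠ x : ℝ in atTop, ∀ s : ℝ, s = 1 ∨ s = -1 →
      x ^ (l - lam) ≤ ((WS f A g s x).ncard : ℝ)) : Many E g l A := by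
  intro ε hε
  filter_upwards [h ε hε, eventually_gt_atTop 0] with x g1 g2 s hs
  have e : WS f A g s x =
      {m : ℕ | A m ∧ x ≤ m ∧ (m : ℝ) ≤ x * Real.log x ^ 2 ∧ g m ≤ s * E m} := by
    ext m
    constructor
    · rintro ⟨k1, k2, k3, k4⟩
      exact ⟨k1, k2, k3, by rwa [← hE m (by exact_mod_cast g2.trans_le k2)]⟩
    · rintro ⟨k1, k2, k3, k4⟩
      exact ⟨k1, k2, k3, by rwa [hE m (by exact_mod_cast g2.trans_le k2)]⟩
  rw [← e]
  exact g1 s hs

/-- many large values and few large values exclude each other -/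
lemma many_few {E : ℕ → ℝ} {g g' : ℝ → ℝ} {l s : ℝ} {A : ℕ → Prop} (hs : s = 1 ∨ s = -1)
    (hM : Many E g l A) (hgg : ∀ᶠ y : ℝ in atTop, g' y < g y) (hB : MostlyBounded E s g' l A) :
    False := by
  obtain ⟨ε, hε, h⟩ := hB
  obtain ⟨x, g1, g2, g3, g4⟩ := (h.and_eventually ((hM (ε / 2) (by linarith)).and
    ((ev_win hgg).and (eventually_gt_atTop 1)))).exists
  have h1 := g2 s hs
  have hsub : {m : ℕ | A m ∧ x ≤ m ∧ (m : ℝ) ≤ x * Real.log x ^ 2 ∧ g m ≤ s * E m} ⊆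
      {m : ℕ | A m ∧ x ≤ m ∧ (m : ℝ) ≤ x * Real.log x ^ 2 ∧ g' m < s * E m} := by
    rintro m ⟨k1, k2, k3, k4⟩
    exact ⟨k1, k2, k3, (g3 m k2).trans_le k4⟩
  have hfin : {m : ℕ | A m ∧ x ≤ m ∧ (m : ℝ) ≤ x * Real.log x ^ 2 ∧ g' m < s * E m}.Finite :=
    (Set.finite_Iic ⌊x * Real.log x ^ 2⌋₊).subset fun _ hm => Nat.le_floor hm.2.2.1
  have h2 : ({m : ℕ | A m ∧ x ≤ m ∧ (m : ℝ) ≤ x * Real.log x ^ 2 ∧ g m ≤ s * E m}.ncard : ℝ) ≤
      ({m : ℕ | A m ∧ x ≤ m ∧ (m : ℝ) ≤ x * Real.log x ^ 2 ∧ g' m < s * E m}.ncard : ℝ) := by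
    exact_mod_cast Set.ncard_le_ncard hsub hfin
  have h3 : x ^ (l - ε) < x ^ (l - ε / 2) := Real.rpow_lt_rpow_of_exponent_lt g4 (by linarith)
  linarith

/-- the statements, from the properties of the function in the exponential scale -/
lemma statements (E : ℕ → ℝ) (f : ℝ → ℝ) (hf : Good f) (hTr : TrC f)
    (hstep : ∀ u u' : ℝ, ⌊Real.exp u⌋₊ = ⌊Real.exp u'⌋₊ → f u = f u')
    (hE : ∀ m : ℕ, 0 < m → f (Real.log m) = E m)
    (hshort : ∀ θ κ c lam : ℝ, 1 / 2 ≤ θ → 0 ≤ κ → 4 * θ * (1 - θ) * (κ + 1) ≤ 1 → 0 < c → 0 < lam →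
      (∃ z : ℂ, riemannZeta z = 0 ∧ θ < z.re) → ∀ᶠ x : ℝ in atTop, x ^ (1 - lam) ≤
      (MeasureTheory.volume {y : ℝ | y ∈ Icc x (x + c * x / Real.log x ^ κ) ∧
        y ^ θ ≤ |f (Real.log y)|}).toReal) : Statements E := by
  have h1 : ∀ θ : ℝ, 1 / 2 ≤ θ → (∃ z : ℂ, riemannZeta z = 0 ∧ θ < z.re) →
      ∀ (l : ℝ) (A : ℕ → Prop), 0 < l → l ≤ 1 → Meets l A → Many E (fun y => y ^ θ) l A :=
    fun θ hθ hz l A hl hl1 hA => many_of hE fun lam hlam =>
      count_right hf hTr hstep hl hl1 hA hθ hz hlam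
  have h2 : ¬ RHSimple → ∃ c : ℝ, 0 < c ∧ ∀ (l : ℝ) (A : ℕ → Prop), 0 < l → l ≤ 1 → Meets l A →
      Many E (fun y => c * (√y * Real.log y)) l A := by
    intro hn
    obtain ⟨c, hc, h⟩ := count_fail hf hTr hstep hn
    exact ⟨c, hc, fun l A hl hl1 hA => many_of hE (h l A hl hl1 hA)⟩
  refine ⟨h1, h2, fun G hG s hs l A hl hl1 hA hb => ?_, fun θ hθ s hs l A hl hl1 hA =>
    ⟨fun hz δ hδ => ?_, fun h z hz => ?_⟩, fun θ κ c hθ hκ hcond hc hz l A hl hl1 hA ε hε => ?_⟩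
  · by_contra hn
    obtain ⟨c, hc, h⟩ := h2 hn
    have hG' : ∀ᶠ y : ℝ in atTop, G y ≤ c / 2 * (√y * Real.log y) := by
      rcases hG with ⟨K, rfl⟩ | hG
      · exact F_small K (c / 2) (by linarith)
      · exact hG (c / 2) (by linarith)
    refine many_few hs (h l A hl hl1 hA) ?_ hb
    filter_upwards [hG', eventually_gt_atTop 1] with y k1 k2
    have k7 : 0 < √y * Real.log y := mul_pos (Real.sqrt_pos.2 (by linarith)) (Real.log_pos k2)
    show G y < c * (√y * Real.log y)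
    nlinarith
  · obtain ⟨K, hK, hup⟩ := hf.up θ hθ (fun z hz0 hz1 => absurd (hz z hz1) (by linarith))
      (θ + δ / 2) (by linarith)
    refine ⟨1, one_pos, Eventually.frequently ?_⟩
    filter_upwards [ev_win (pow_gap (show θ + δ / 2 < θ + δ by linarith) K),
      eventually_ge_atTop 1] with x g2 g3
    have hemp : {m : ℕ | A m ∧ x ≤ m ∧ (m : ℝ) ≤ x * Real.log x ^ 2 ∧
        (m : ℝ) ^ (θ + δ) < s * E m} = ∅ := by
      rw [Set.eq_empty_iff_forall_notMem]
      rintro m ⟨k1, k2, k3, k4⟩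
      have hm : (1 : ℝ) ≤ m := g3.trans k2
      have hm0 : 0 < m := by exact_mod_cast (by linarith : (0 : ℝ) < m)
      have e1 := hup (Real.log m) (Real.log_nonneg hm)
      have e2 : Real.exp ((θ + δ / 2) * Real.log m) = (m : ℝ) ^ (θ + δ / 2) := by
        rw [Real.rpow_def_of_pos (by linarith), mul_comm]
      rw [hE m hm0, e2] at e1
      have e3 : s * E m ≤ |E m| := by
        refine (le_abs_self _).trans ?_
        rw [abs_mul]
        rcases hs with rfl | rfl <;> simp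
      have e4 := g2 m k2
      linarith
    rw [hemp, Set.ncard_empty, Nat.cast_zero]
    exact Real.rpow_nonneg (by linarith) _
  · by_contra hz1
    have hz2 : θ < z.re := not_le.1 hz1
    refine many_few hs (h1 ((θ + z.re) / 2) (by linarith) ⟨z, hz, by linarith⟩ l A hl hl1 hA) ?_
      (h ((z.re - θ) / 4) (by linarith))
    filter_upwards [eventually_gt_atTop 1] with y hy
    exact Real.rpow_lt_rpow_of_exponent_lt hy (by linarith)
  · filter_upwards [count_short hTr hstep hshort hl hl1 hA hθ hκ hcond hc hz hε,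
      eventually_gt_atTop 0] with x g1 g2
    have e : {m : ℕ | A m ∧ x ≤ m ∧ (m : ℝ) ≤ x + c * x / Real.log x ^ κ ∧
        (m : ℝ) ^ θ ≤ |f (Real.log m)|} = {m : ℕ | A m ∧ x ≤ m ∧
        (m : ℝ) ≤ x + c * x / Real.log x ^ κ ∧ (m : ℝ) ^ θ ≤ |E m|} := by
      ext m
      constructor
      · rintro ⟨k1, k2, k3, k4⟩
        exact ⟨k1, k2, k3, by rwa [← hE m (by exact_mod_cast g2.trans_le k2)]⟩
      · rintro ⟨k1, k2, k3, k4⟩
        exact ⟨k1, k2, k3, by rwa [hE m (by exact_mod_cast g2.trans_le k2)]⟩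
    rw [← e]
    exact g1

lemma mm_log (m : ℕ) (hm : 0 < m) : H313.TK.mm (Real.log m) = M m := by
  unfold H313.TK.mm H313.TK.MM M
  rw [Real.exp_log (by exact_mod_cast hm), Nat.floor_natCast]

/-- **Large values at sparse sets of integers.** Every set of integers which meets the intervals
`[x, x + x^(1 - l)]` has many members `m` with `M(m) ≥ c m^(1/2)`, and many with `M(m) ≤ -c m^(1/2)`; the
five statements hold for `M` and for `L`; and the set of the `k`-th powers meets these intervals, for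
all `l < 1/k`. -/
theorem result :
    (∃ c : ℝ, 0 < c ∧ ∀ (l : ℝ) (A : ℕ → Prop), 0 < l → l ≤ 1 → Meets l A →
      Many M (fun y => c * √y) l A) ∧
    Statements M ∧ Statements L ∧
    (∀ k : ℕ, 1 ≤ k → ∀ l : ℝ, l < 1 / k → Meets l fun m => ∃ j : ℕ, m = j ^ k) := by
  have hE : ∀ (f g : ℝ → ℝ) (θ κ c x : ℝ), (∀ y : ℝ, 0 < y → f (Real.log y) = g y) → 0 < x →
      {y : ℝ | y ∈ Icc x (x + c * x / Real.log x ^ κ) ∧ y ^ θ ≤ |f (Real.log y)|} =
      {y : ℝ | y ∈ Icc x (x + c * x / Real.log x ^ κ) ∧ y ^ θ ≤ |g y|} := by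
    intro f g θ κ c x h hx
    ext y
    constructor
    · rintro ⟨h1, h2⟩
      exact ⟨h1, by rwa [← h y (hx.trans_le h1.1)]⟩
    · rintro ⟨h1, h2⟩
      exact ⟨h1, by rwa [h y (hx.trans_le h1.1)]⟩
  refine ⟨?_, statements M H313.TK.mm good_mm trc_mm mm_step mm_log ?_,
    statements L ll good_ll trc_ll (fun u u' h => ?_) (fun m hm => ?_) ?_,
    fun k hk l hl => pow_meets hk hl⟩
  · obtain ⟨c, hc, h⟩ := count_mob
    exact ⟨c, hc, fun l A hl hl1 hA => many_of mm_log (h l A hl hl1 hA)⟩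
  · intro θ κ c lam h1 h2 h3 h4 h5 h6
    filter_upwards [short_M θ κ c lam h1 h2 h3 h4 h5 h6, eventually_gt_atTop 0] with x hx hx0
    rw [hE H313.TK.mm (Pool.Agent.W190.SF Pool.Agent.R303.SW.muR) θ κ c x
      (fun y hy => ?_) hx0]
    · exact hx
    · unfold H313.TK.mm
      rw [Real.exp_log hy]
      rfl
  · unfold ll LL
    rw [h]
  · unfold ll LL L
    rw [Real.exp_log (by exact_mod_cast hm), Nat.floor_natCast]
  · intro θ κ c lam h1 h2 h3 h4 h5 h6
    filter_upwards [short_L θ κ c lam h1 h2 h3 h4 h5 h6, eventually_gt_atTop 0] with x hx hx0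
    rw [hE ll (Pool.Agent.W190.SF Pool.Agent.R303.SW.laR) θ κ c x
      (fun y hy => ?_) hx0]
    · exact hx
    · unfold ll
      rw [Real.exp_log hy]
      rfl

end Pool.Agent.Results.MP_a499ba_nt.SparseIntegers
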